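import Mathlib

set_option autoImplicit false

namespace Pool.Agent.Lib.MP_6af4f0_al

open Topology

/-- A topological group `(G, τ)` is locally minimal if some neighbourhood `V` of the identity has
this property: every Hausdorff group topology `σ` coarser than `τ` in which `V` is still a
neighbourhood of the identity equals `τ`. -/
def LocallyMinimal (G : Type*) [Group G] [τ : TopologicalSpace G] : Prop :=
  ∃ V ∈ 𝓝 (1 : G), ∀ σ : TopologicalSpace G, @IsTopologicalGroup G σ _ → @T2Space G σ →
    τ ≤ σ → V ∈ @nhds G σ 1 → σ = τ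

/-- Every dense subgroup is locally minimal. -/
def DenselyLocallyMinimal (G : Type*) [Group G] [TopologicalSpace G] : Prop :=
  ∀ H : Subgroup G, Dense (H : Set G) → LocallyMinimal H

/-- `ℝ × SL₂(ℚ_p)` (the factor `ℝ` is written multiplicatively). -/
abbrev Ex (p : ℕ) [Fact p.Prime] : Type :=
  Multiplicative ℝ × Matrix.SpecialLinearGroup (Fin 2) ℚ_[p]

end Pool.Agent.Lib.MP_6af4f0_al
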