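import Pool.Agent.Lib.MP_6af4f0_al.Defs

set_option autoImplicit false

/-!
A dense subgroup of a locally compact group without small normal subgroups is locally minimal.
-/

namespace Pool.Agent.Lib.MP_6af4f0_al

open Topology Filter Set

section

variable {G : Type*} [Group G] [TopologicalSpace G] [IsTopologicalGroup G]

/-- the points of `G` that are in the closure of every `σ`-neighbourhood of `1`. -/
def limitKernel (H : Subgroup G) (σ : TopologicalSpace H) (hσ : @IsTopologicalGroup H σ _) :
    Subgroup G where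
  carrier := {x | ∀ S ∈ @nhds H σ 1, x ∈ closure ((↑) '' S : Set G)}
  one_mem' := fun S hS => subset_closure ⟨1, @mem_of_mem_nhds H σ 1 S hS, rfl⟩
  mul_mem' := by
    intro x y hx hy S hS
    have hc : @ContinuousMul H σ _ := hσ.toContinuousMul
    obtain ⟨S', hS', hSS⟩ := @exists_nhds_one_split H σ _ hc S hS
    refine map_mem_closure₂ continuous_mul (hx S' hS') (hy S' hS') ?_
    rintro _ ⟨a, ha, rfl⟩ _ ⟨b, hb, rfl⟩
    exact ⟨a * b, hSS a ha b hb, rfl⟩
  inv_mem' := by
    intro x hx S hS
    have hS' : (fun h : H => h⁻¹) ⁻¹' S ∈ @nhds H σ 1 := by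
      have hc : @Continuous H H σ σ (fun h : H => h⁻¹) := hσ.continuous_inv
      have := @Continuous.tendsto H H σ σ _ hc 1
      rw [inv_one] at this
      exact this hS
    refine map_mem_closure continuous_inv (hx _ hS') ?_
    rintro _ ⟨a, ha, rfl⟩
    exact ⟨a⁻¹, ha, rfl⟩

theorem mem_limitKernel {H : Subgroup G} {σ : TopologicalSpace H}
    {hσ : @IsTopologicalGroup H σ _} {x : G} :
    x ∈ limitKernel H σ hσ ↔ ∀ S ∈ @nhds H σ 1, x ∈ closure ((↑) '' S : Set G) := Iff.rfl

theorem isClosed_limitKernel (H : Subgroup G) (σ : TopologicalSpace H)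
    (hσ : @IsTopologicalGroup H σ _) : IsClosed (limitKernel H σ hσ : Set G) := by
  have : (limitKernel H σ hσ : Set G) = ⋂ S ∈ @nhds H σ 1, closure ((↑) '' S : Set G) := by
    ext x
    simp [mem_limitKernel]
  rw [this]
  exact isClosed_biInter fun S _ => isClosed_closure

theorem conj_mem_limitKernel {H : Subgroup G} {σ : TopologicalSpace H}
    {hσ : @IsTopologicalGroup H σ _} {x : G} (hx : x ∈ limitKernel H σ hσ) (h : H) :
    (h : G) * x * (h : G)⁻¹ ∈ limitKernel H σ hσ := by
  intro S hS
  have hS' : (fun s : H => h * s * h⁻¹) ⁻¹' S ∈ @nhds H σ 1 := by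
    have hc : @Continuous H H σ σ (fun s : H => h * s * h⁻¹) := by
      let _ := σ
      have _ := hσ
      fun_prop
    have := @Continuous.tendsto H H σ σ _ hc 1
    rw [mul_one, mul_inv_cancel] at this
    exact this hS
  refine map_mem_closure (f := fun s : G => (h : G) * s * (h : G)⁻¹) (by fun_prop)
    (hx _ hS') ?_
  rintro _ ⟨a, ha, rfl⟩
  exact ⟨h * a * h⁻¹, ha, rfl⟩

theorem normal_limitKernel {H : Subgroup G} (hH : Dense (H : Set G)) (σ : TopologicalSpace H)
    (hσ : @IsTopologicalGroup H σ _) : (limitKernel H σ hσ).Normal := by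
  constructor
  intro x hx g
  have hcl : IsClosed {g : G | g * x * g⁻¹ ∈ limitKernel H σ hσ} :=
    (isClosed_limitKernel H σ hσ).preimage (by fun_prop : Continuous fun g : G => g * x * g⁻¹)
  have hsub : (H : Set G) ⊆ {g : G | g * x * g⁻¹ ∈ limitKernel H σ hσ} := fun h hh =>
    conj_mem_limitKernel hx ⟨h, hh⟩
  exact hcl.closure_subset_iff.2 hsub (hH g)

/-- In a locally compact Hausdorff group with a neighbourhood of the identity containing no
non-trivial closed normal subgroup, every dense subgroup is locally minimal. -/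
theorem denselyLocallyMinimal_of_no_small_normal [T2Space G] [LocallyCompactSpace G]
    {V : Set G} (hV : V ∈ 𝓝 (1 : G))
    (hN : ∀ N : Subgroup G, N.Normal → IsClosed (N : Set G) → (N : Set G) ⊆ V → N = ⊥) :
    DenselyLocallyMinimal G := by
  intro H hH
  obtain ⟨K, hK1, hKV, hK⟩ := local_compact_nhds hV
  refine ⟨(↑) ⁻¹' K, continuous_subtype_val.continuousAt.preimage_mem_nhds (by simpa using hK1),
    ?_⟩
  intro σ hσ _ hle hW
  set τ : TopologicalSpace H := inferInstance with hτ
  have hNK : (limitKernel H σ hσ : Set G) ⊆ K := by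
    intro x hx
    have h1 := hx _ hW
    have h2 : closure ((↑) '' ((↑) ⁻¹' K : Set H) : Set G) ⊆ K :=
      hK.isClosed.closure_subset_iff.2 (image_preimage_subset _ _)
    exact h2 h1
  have hbot := hN _ (normal_limitKernel hH σ hσ) (isClosed_limitKernel H σ hσ) (hNK.trans hKV)
  refine IsTopologicalGroup.ext hσ inferInstance (le_antisymm ?_ (nhds_mono hle))
  intro O hO
  by_contra hcon
  obtain ⟨U, hU, hUO⟩ : ∃ U ∈ 𝓝 (1 : G), (↑) ⁻¹' U ⊆ O := by
    rw [nhds_subtype_eq_comap, mem_comap] at hO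
    simpa using hO
  -- the filter of `σ`-neighbourhoods outside `O`
  have hne : (@nhds H σ 1 ⊓ 𝓟 Oᶜ).NeBot := by
    rw [inf_principal_neBot_iff]
    intro S hS
    by_contra hempty
    rw [not_nonempty_iff_eq_empty] at hempty
    apply hcon
    apply mem_of_superset hS
    intro s hs
    by_contra hsO
    have : s ∈ S ∩ Oᶜ := ⟨hs, hsO⟩
    rw [hempty] at this
    exact this
  have hmap : map (fun h : H => (h : G)) (@nhds H σ 1 ⊓ 𝓟 Oᶜ) ≤ 𝓟 K := by
    rw [le_principal_iff, mem_map]
    exact mem_inf_of_left hW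
  obtain ⟨x, _, hx⟩ := hK hmap
  have hxN : x ∈ limitKernel H σ hσ := by
    intro S hS
    rw [mem_closure_iff_clusterPt]
    refine hx.mono ?_
    rw [le_principal_iff, mem_map]
    exact mem_inf_of_left (mem_of_superset hS fun s hs => ⟨s, hs, rfl⟩)
  rw [hbot, Subgroup.mem_bot] at hxN
  subst hxN
  have hx2 : ∃ᶠ y in map (fun h : H => (h : G)) (@nhds H σ 1 ⊓ 𝓟 Oᶜ), y ∈ U :=
    hx.frequently hU
  rw [frequently_map] at hx2
  obtain ⟨h, h1, h2⟩ := (hx2.and_eventually (mem_inf_of_right (mem_principal_self _))).exists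
  exact h2 (hUO h1)

end

end Pool.Agent.Lib.MP_6af4f0_al
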