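import Pool.Agent.Lib.MP_6af4f0_al.Dense

set_option autoImplicit false

/-!
The group `ℝ × SL₂(ℚ_p)`.
-/

namespace Pool.Agent.Lib.MP_6af4f0_al

open Topology Filter Set Matrix

variable (p : ℕ) [Fact p.Prime]

instance : LocallyCompactSpace (SpecialLinearGroup (Fin 2) ℚ_[p]) := by
  have : LocallyCompactSpace (Matrix (Fin 2) (Fin 2) ℚ_[p]) :=
    inferInstanceAs (LocallyCompactSpace (Fin 2 → Fin 2 → ℚ_[p]))
  exact SpecialLinearGroup.isClosedEmbedding_val.locallyCompactSpace

instance : T2Space (SpecialLinearGroup (Fin 2) ℚ_[p]) := by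
  have : T2Space (Matrix (Fin 2) (Fin 2) ℚ_[p]) :=
    inferInstanceAs (T2Space (Fin 2 → Fin 2 → ℚ_[p]))
  exact SpecialLinearGroup.isClosedEmbedding_val.isEmbedding.t2Space

variable {p}

theorem continuous_entry (i j : Fin 2) : Continuous fun g : Ex p => g.2 i j :=
  (continuous_apply j).comp (SpecialLinearGroup.continuous_apply _ continuous_snd i)

/-- the neighbourhood of the identity. -/
def nb (p : ℕ) [Fact p.Prime] : Set (Ex p) :=
  {g | |Multiplicative.toAdd g.1| < 1 ∧ ‖g.2 0 1‖ < 1 ∧ ‖g.2 1 0‖ < 1 ∧ ‖g.2 0 0 - 1‖ < ‖(2 : ℚ_[p])‖}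

theorem nb_mem : nb p ∈ 𝓝 (1 : Ex p) := by
  have hopen : IsOpen (nb p) := by
    unfold nb
    have h1 : Continuous fun g : Ex p => |Multiplicative.toAdd g.1| :=
      (continuous_abs.comp continuous_toAdd).comp continuous_fst
    exact (isOpen_lt h1 continuous_const).inter ((isOpen_lt (continuous_entry 0 1).norm
      continuous_const).inter ((isOpen_lt (continuous_entry 1 0).norm continuous_const).inter
        (isOpen_lt ((continuous_entry 0 0).sub continuous_const).norm continuous_const)))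
  apply hopen.mem_nhds
  have h2 : (0 : ℝ) < ‖(2 : ℚ_[p])‖ := norm_pos_iff.2 two_ne_zero
  simp [nb]

/-- `diag(t, t⁻¹)` -/
noncomputable def dg (t : ℚ_[p]) (ht : t ≠ 0) : SpecialLinearGroup (Fin 2) ℚ_[p] :=
  ⟨!![t, 0; 0, t⁻¹], by simp [Matrix.det_fin_two, ht]⟩

/-- `(1, x; 0, 1)` -/
noncomputable def up (x : ℚ_[p]) : SpecialLinearGroup (Fin 2) ℚ_[p] :=
  ⟨!![1, x; 0, 1], by simp [Matrix.det_fin_two]⟩

theorem up_mul (x y : ℚ_[p]) : up x * up y = up (x + y) := by
  have h : (!![1, x; 0, 1] * !![1, y; 0, 1] : Matrix (Fin 2) (Fin 2) ℚ_[p]) = !![1, x + y; 0, 1] := by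
    rw [Matrix.mul_fin_two]
    simp [add_comm]
  exact Subtype.ext h

theorem up_zero : up (0 : ℚ_[p]) = 1 := by
  ext i j
  fin_cases i <;> fin_cases j <;> simp [up]

theorem up_inv (x : ℚ_[p]) : (up x)⁻¹ = up (-x) := by
  rw [inv_eq_iff_mul_eq_one, up_mul, add_neg_cancel, up_zero]

theorem conj_fin_two (M : Matrix (Fin 2) (Fin 2) ℚ_[p]) (a b c d : ℚ_[p]) :
    !![a, b; c, d] * M * adjugate !![a, b; c, d] =
      !![(a * M 0 0 + b * M 1 0) * d + (a * M 0 1 + b * M 1 1) * -c,
        (a * M 0 0 + b * M 1 0) * -b + (a * M 0 1 + b * M 1 1) * a;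
        (c * M 0 0 + d * M 1 0) * d + (c * M 0 1 + d * M 1 1) * -c,
        (c * M 0 0 + d * M 1 0) * -b + (c * M 0 1 + d * M 1 1) * a] := by
  conv_lhs => rw [Matrix.eta_fin_two M, Matrix.adjugate_fin_two_of, Matrix.mul_fin_two, Matrix.mul_fin_two]

theorem no_small_normal (N : Subgroup (Ex p)) (hN : N.Normal) (hsub : (N : Set (Ex p)) ⊆ nb p) :
    N = ⊥ := by
  rw [eq_bot_iff]
  intro g hg
  rw [Subgroup.mem_bot]
  -- the real component
  have h1 : g.1 = 1 := by
    by_contra hne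
    have hpos : 0 < |Multiplicative.toAdd g.1| := by
      rw [abs_pos]
      intro h0
      exact hne (by rw [← ofAdd_toAdd g.1, h0]; rfl)
    obtain ⟨n, hn⟩ := exists_nat_gt (1 / |Multiplicative.toAdd g.1|)
    have h2 := (hsub (N.pow_mem hg n)).1
    rw [Prod.pow_fst, toAdd_pow, nsmul_eq_mul, abs_mul, Nat.abs_cast] at h2
    rw [div_lt_iff₀ hpos] at hn
    linarith
  -- conjugation by `(1, k)`
  have hconj : ∀ x ∈ N, ∀ k : SpecialLinearGroup (Fin 2) ℚ_[p], (x.1, k * x.2 * k⁻¹) ∈ N := by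
    intro x hx k
    have h2 := hN.conj_mem x hx (1, k)
    have h3 : ((1, k) : Ex p) * x * (1, k)⁻¹ = (x.1, k * x.2 * k⁻¹) := by
      ext <;> simp
    rwa [h3] at h2
  have hdiag : ∀ x ∈ N, x.2 0 1 = 0 ∧ x.2 1 0 = 0 := by
    -- it is enough to scale by squares
    have hsq : ∀ x ∈ N, ∀ t : ℚ_[p], t ≠ 0 → ‖t * x.2 0 1 * t‖ < 1 ∧ ‖t⁻¹ * x.2 1 0 * t⁻¹‖ < 1 := by
      intro x hx t ht
      have h2 := hsub (hconj x hx (dg t ht))
      have e1 : ((dg t ht * x.2 * (dg t ht)⁻¹ : SpecialLinearGroup (Fin 2) ℚ_[p]) 0 1) =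
          t * x.2 0 1 * t := by
        have h := conj_fin_two (x.2 : Matrix (Fin 2) (Fin 2) ℚ_[p]) t 0 0 t⁻¹
        simp only [mul_zero, zero_mul, add_zero, zero_add, neg_zero] at h
        exact (congrFun (congrFun h _) _).trans (by simp)
      have e2 : ((dg t ht * x.2 * (dg t ht)⁻¹ : SpecialLinearGroup (Fin 2) ℚ_[p]) 1 0) =
          t⁻¹ * x.2 1 0 * t⁻¹ := by
        have h := conj_fin_two (x.2 : Matrix (Fin 2) (Fin 2) ℚ_[p]) t 0 0 t⁻¹
        simp only [mul_zero, zero_mul, add_zero, zero_add, neg_zero] at h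
        exact (congrFun (congrFun h _) _).trans (by simp)
      rw [← e1, ← e2]
      exact ⟨h2.2.1, h2.2.2.1⟩
    -- unboundedness of squares
    have hunb : ∀ y : ℚ_[p], (∀ t : ℚ_[p], t ≠ 0 → ‖t * y * t‖ < 1) → y = 0 := by
      intro y hy
      by_contra hy0
      have hypos : 0 < ‖y‖ := norm_pos_iff.2 hy0
      obtain ⟨c, hc⟩ := NormedField.exists_lt_norm ℚ_[p] (max 1 (1 / ‖y‖))
      have hc1 : 1 < ‖c‖ := lt_of_le_of_lt (le_max_left _ _) hc
      have hc2 : 1 / ‖y‖ < ‖c‖ := lt_of_le_of_lt (le_max_right _ _) hc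
      have hc0 : c ≠ 0 := by rintro rfl; simp at hc1; linarith
      have h3 := hy c hc0
      rw [norm_mul, norm_mul] at h3
      rw [div_lt_iff₀ hypos] at hc2
      nlinarith
    intro x hx
    refine ⟨hunb _ fun t ht => (hsq x hx t ht).1, hunb _ fun t ht => ?_⟩
    have := (hsq x hx t⁻¹ (inv_ne_zero ht)).2
    rwa [inv_inv] at this
  -- diagonal entries agree
  have h3 := hdiag _ (hconj g hg (up 1))
  have h4 := hdiag g hg
  have e3 : ((up 1 * g.2 * (up 1)⁻¹ : SpecialLinearGroup (Fin 2) ℚ_[p]) 0 1) =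
      g.2 1 1 - g.2 0 0 := by
    have h := conj_fin_two (g.2 : Matrix (Fin 2) (Fin 2) ℚ_[p]) 1 1 0 1
    exact (congrFun (congrFun h _) _).trans (by simp [h4.1, h4.2]; ring)
  have h5 : g.2 1 1 = g.2 0 0 := by
    have := h3.1
    rw [e3] at this
    exact sub_eq_zero.1 this
  have h6 : g.2 0 0 * g.2 0 0 = 1 := by
    have hdet := g.2.det_coe
    rw [Matrix.det_fin_two, h4.1, h4.2, h5] at hdet
    simpa using hdet
  have h7 : g.2 0 0 = 1 := by
    rcases mul_self_eq_one_iff.1 h6 with h | h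
    · exact h
    · exfalso
      have h8 := (hsub hg).2.2.2
      rw [h] at h8
      have : (-1 - 1 : ℚ_[p]) = -2 := by norm_num
      rw [this, norm_neg] at h8
      exact lt_irrefl _ h8
  refine Prod.ext h1 ?_
  ext i j
  fin_cases i <;> fin_cases j
  · simpa using h7
  · simpa using h4.1
  · simpa using h4.2
  · simpa [h5] using h7

theorem denselyLocallyMinimal_ex : DenselyLocallyMinimal (Ex p) :=
  denselyLocallyMinimal_of_no_small_normal (nb_mem (p := p))
    (fun N hN _ hsub => no_small_normal N hN hsub)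

theorem not_totallyDisconnected : ¬ TotallyDisconnectedSpace (Ex p) := by
  intro h
  have h1 : IsPreconnected (range fun t : ℝ => ((Multiplicative.ofAdd t, 1) : Ex p)) :=
    isPreconnected_range (by fun_prop)
  have h2 := h1.subsingleton
  have h3 := h2 (mem_range_self (0 : ℝ)) (mem_range_self (1 : ℝ))
  simp only [Prod.mk.injEq, and_true] at h3
  have := Multiplicative.ofAdd.injective h3
  norm_num at this

/-- `x ↦ (1, (1, x; 0, 1))` -/
noncomputable def emb (x : ℚ_[p]) : Ex p := (1, up x)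

theorem continuous_up : Continuous (up : ℚ_[p] → SpecialLinearGroup (Fin 2) ℚ_[p]) := by
  refine Topology.IsInducing.subtypeVal.continuous_iff.2 (continuous_matrix fun i j => ?_)
  change Continuous fun a : ℚ_[p] => (!![1, a; 0, 1] : Matrix (Fin 2) (Fin 2) ℚ_[p]) i j
  fin_cases i <;> fin_cases j
  · exact continuous_const
  · exact continuous_id
  · exact continuous_const
  · exact continuous_const

theorem continuous_emb : Continuous (emb : ℚ_[p] → Ex p) :=
  continuous_const.prodMk continuous_up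

theorem emb_entry (x : ℚ_[p]) : (emb x).2 0 1 = x := by simp [emb, up]

/-- the closed subgroup of upper unipotent matrices. -/
def U (p : ℕ) [Fact p.Prime] : Subgroup (Ex p) where
  carrier := range (emb (p := p))
  one_mem' := ⟨0, by simp [emb, up_zero]⟩
  mul_mem' := by
    rintro _ _ ⟨x, rfl⟩ ⟨y, rfl⟩
    exact ⟨x + y, by simp [emb, up_mul]⟩
  inv_mem' := by
    rintro _ ⟨x, rfl⟩
    exact ⟨-x, by simp [emb, up_inv]⟩

theorem mem_U {g : Ex p} : g ∈ U p ↔ ∃ x, emb x = g := Iff.rfl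

theorem isClosed_U : IsClosed (U p : Set (Ex p)) := by
  have : (U p : Set (Ex p)) = {g : Ex p | emb (g.2 0 1) = g} := by
    ext g
    simp only [SetLike.mem_coe, mem_U, mem_ofPred_eq]
    constructor
    · rintro ⟨x, rfl⟩
      rw [emb_entry]
    · intro h
      exact ⟨_, h⟩
  rw [this]
  exact isClosed_eq (continuous_emb.comp (continuous_entry 0 1)) continuous_id

theorem comm_U : ∀ x ∈ U p, ∀ y ∈ U p, x * y = y * x := by
  rintro _ ⟨x, rfl⟩ _ ⟨y, rfl⟩
  simp [emb, up_mul, add_comm]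

/-- `U` is homeomorphic and isomorphic to `ℚ_p`. -/
noncomputable def homeoU : ℚ_[p] ≃ₜ U p where
  toFun x := ⟨emb x, x, rfl⟩
  invFun g := g.1.2 0 1
  left_inv x := emb_entry x
  right_inv := by
    rintro ⟨_, x, rfl⟩
    apply Subtype.ext
    simp only
    rw [emb_entry]
  continuous_toFun := continuous_emb.subtype_mk _
  continuous_invFun := (continuous_entry 0 1).comp continuous_subtype_val

/-- `ℚ_p` and hence `U` is not a topological manifold. -/
theorem not_locallyEuclidean (n : ℕ) : IsEmpty (ChartedSpace (EuclideanSpace ℝ (Fin n)) (U p)) := by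
  constructor
  intro hcs
  have h1 : LocallyConnectedSpace (U p) := ChartedSpace.locallyConnectedSpace (EuclideanSpace ℝ (Fin n)) _
  have h2 : LocallyConnectedSpace ℚ_[p] := homeoU.isOpenEmbedding.locallyConnectedSpace
  -- totally disconnected and locally connected, hence discrete
  have h3 : IsOpen (connectedComponent (0 : ℚ_[p])) := isOpen_connectedComponent
  rw [connectedComponent_eq_singleton] at h3
  exact not_isOpen_singleton (0 : ℚ_[p]) h3

/-- the copy of `ℤ_p`. -/
noncomputable def copyZp : Multiplicative ℤ_[p] →* Ex p where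
  toFun x := emb ((Multiplicative.toAdd x : ℤ_[p]) : ℚ_[p])
  map_one' := by simp [emb, up_zero]
  map_mul' x y := by simp [emb, up_mul]

theorem isClosedEmbedding_copyZp : IsClosedEmbedding (copyZp : Multiplicative ℤ_[p] →* Ex p) := by
  have hc : Continuous (copyZp : Multiplicative ℤ_[p] →* Ex p) :=
    continuous_emb.comp ((continuous_subtype_val (p := fun x : ℚ_[p] => ‖x‖ ≤ 1)).comp
      continuous_toAdd)
  have hi : Function.Injective (copyZp : Multiplicative ℤ_[p] →* Ex p) := by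
    intro x y h
    have h1 : emb ((Multiplicative.toAdd x : ℤ_[p]) : ℚ_[p]) =
      emb ((Multiplicative.toAdd y : ℤ_[p]) : ℚ_[p]) := h
    have h2 : ((Multiplicative.toAdd x : ℤ_[p]) : ℚ_[p]) = ((Multiplicative.toAdd y : ℤ_[p]) : ℚ_[p]) := by
      rw [← emb_entry ((Multiplicative.toAdd x : ℤ_[p]) : ℚ_[p]), h1, emb_entry]
    exact Multiplicative.toAdd.injective (Subtype.ext h2)
  have : CompactSpace (Multiplicative ℤ_[p]) := inferInstanceAs (CompactSpace ℤ_[p])
  exact hc.isClosedEmbedding hi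

end Pool.Agent.Lib.MP_6af4f0_al
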